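import Mathlib

/-! The limit of ergodic averages can take infinitely many values. -/

namespace Pool.Agent.Results.MP_8df504_an.ManyVals

open Set Filter Topology MeasureTheory Classical

/-- broken-linear transformation of `[0,1]` -/
def BL (T : ℝ → ℝ) : Prop :=
  ContinuousOn T (Icc 0 1) ∧ MapsTo T (Icc 0 1) (Icc 0 1) ∧
    ∃ (m : ℕ) (a : ℕ → ℝ), a 0 = 0 ∧ a m = 1 ∧ (∀ j < m, a j < a (j + 1)) ∧
      ∀ j < m, ∃ c d : ℝ, ∀ x ∈ Icc (a j) (a (j + 1)), T x = c * x + d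

/-- proportion of the first `N` iterates of `p` lying in `R` -/
noncomputable def A (T : ℝ → ℝ) (R : Set ℝ) (N : ℕ) (p : ℝ) : ℝ :=
  (∑ i ∈ Finset.Icc 1 N, R.indicator (fun _ => (1 : ℝ)) (T^[i] p)) / N

/-- the example map -/
noncomputable def T0 (x : ℝ) : ℝ := max (x / 2) (2 * x - 1)

theorem T0_lo {x : ℝ} (h : x ≤ 2 / 3) : T0 x = x / 2 := max_eq_left (by linarith)

theorem T0_hi {x : ℝ} (h : 2 / 3 ≤ x) : T0 x = 2 * x - 1 := max_eq_right (by linarith)

theorem T0_BL : BL T0 ∧ BijOn T0 (Icc 0 1) (Icc 0 1) := by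
  have hc : Continuous T0 := by unfold T0; fun_prop
  have hm : MapsTo T0 (Icc 0 1) (Icc 0 1) := fun x hx =>
    ⟨le_max_of_le_left (by linarith [hx.1]), max_le (by linarith [hx.2]) (by linarith [hx.2])⟩
  have hs : StrictMono T0 := fun x y h => max_lt_max (by linarith) (by linarith)
  refine ⟨⟨hc.continuousOn, hm, 2, fun j => if j = 0 then 0 else if j = 1 then 2 / 3 else 1,
    by simp, by simp, fun j hj => ?_, fun j hj => ?_⟩, hm, hs.injective.injOn, ?_⟩
  · interval_cases j <;> norm_num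
  · interval_cases j
    · exact ⟨1 / 2, 0, fun x hx => by rw [T0_lo (by simpa using hx.2)]; ring⟩
    · exact ⟨2, -1, fun x hx => by rw [T0_hi (by simpa using hx.1)]; ring⟩
  · have := intermediate_value_Icc zero_le_one hc.continuousOn
    rwa [T0_lo (x := 0) (by norm_num), T0_hi (x := 1) (by norm_num), zero_div,
      show (2 : ℝ) * 1 - 1 = 1 by norm_num] at this

theorem iter {x : ℝ} (h0 : 0 ≤ x) (h : x ≤ 2 / 3) (n : ℕ) : T0^[n] x = x / 2 ^ n := by
  induction n with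
  | zero => simp
  | succ n ih =>
    rw [Function.iterate_succ_apply', ih,
      T0_lo ((div_le_self h0 (one_le_pow₀ one_le_two)).trans h), pow_succ, div_div]

/-- the set attached to a rule `F` -/
def RF (F : ℕ → Set ℝ) : Set ℝ := ⋃ i : ℕ, (fun x => x * 2 ^ i) ⁻¹' (Ioc (1 / 3) (2 / 3) ∩ F i)

theorem RF_meas {F : ℕ → Set ℝ} (h : ∀ i, MeasurableSet (F i)) : MeasurableSet (RF F) :=
  MeasurableSet.iUnion fun i => (measurableSet_Ioc.inter (h i)).preimage (by fun_prop)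

theorem RF_sub (F : ℕ → Set ℝ) : RF F ⊆ Icc 0 1 := fun x hx => by
  obtain ⟨i, ⟨h1, h2⟩, -⟩ := mem_iUnion.1 hx
  have : (1 : ℝ) ≤ 2 ^ i := one_le_pow₀ one_le_two
  have h0 : 0 < x := by
    by_contra h
    nlinarith [not_lt.1 h]
  exact ⟨h0.le, by nlinarith⟩

theorem RF_mem (F : ℕ → Set ℝ) {q : ℝ} (hq : q ∈ Ioc (1 / 3 : ℝ) (2 / 3)) (n : ℕ) :
    q / 2 ^ n ∈ RF F ↔ q ∈ F n := by
  have e : q / 2 ^ n * 2 ^ n = q := by field_simp
  refine ⟨fun h => ?_, fun h => mem_iUnion.2 ⟨n, by rw [mem_preimage, e]; exact ⟨hq, h⟩⟩⟩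
  obtain ⟨i, ⟨h1, h2⟩, h3⟩ := mem_iUnion.1 h
  beta_reduce at h1 h2 h3
  have hp : (0 : ℝ) < 2 ^ n := by positivity
  have hi : (0 : ℝ) < 2 ^ i := by positivity
  rw [div_mul_eq_mul_div] at h1 h2
  rw [lt_div_iff₀ hp] at h1
  rw [div_le_iff₀ hp] at h2
  obtain h | rfl | h := lt_trichotomy i n
  · have : (2 : ℝ) ^ (i + 1) ≤ 2 ^ n := pow_le_pow_right₀ one_le_two h
    rw [pow_succ] at this
    nlinarith [hq.2]
  · rwa [e] at h3
  · have : (2 : ℝ) ^ (n + 1) ≤ 2 ^ i := pow_le_pow_right₀ one_le_two h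
    rw [pow_succ] at this
    nlinarith [hq.1]

theorem avg (f : ℕ → ℝ) {j k m : ℕ} (hm : 0 < m)
    (h : ∀ n, f (n + j) = if m ∣ n + k then 1 else 0) :
    Tendsto (fun N : ℕ => (∑ i ∈ Finset.Icc 1 N, f i) / N) atTop (𝓝 (1 / m)) := by
  have e : ∀ N, ∑ i ∈ Finset.Icc 1 (N + j), f i + (k / m : ℕ) =
      ∑ i ∈ Finset.Icc 1 j, f i + ((N + k) / m : ℕ) := fun N => by
    induction N with
    | zero => simp
    | succ N ih =>
      rw [add_right_comm N 1 j, Finset.sum_Icc_succ_top (by omega), add_right_comm N j 1, h,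
        add_right_comm N 1 k, Nat.succ_div]
      push_cast
      linarith
  rw [← tendsto_add_atTop_iff_nat j, tendsto_iff_norm_sub_tendsto_zero]
  have h0 : (0 : ℝ) < m := by exact_mod_cast hm
  refine squeeze_zero' (Eventually.of_forall fun _ => norm_nonneg _) ?_
    ((tendsto_add_atTop_iff_nat j).2 (tendsto_const_div_atTop_nhds_zero_nat
      (|∑ i ∈ Finset.Icc 1 j, f i - (k / m : ℕ) + (k - j) / m| + 1)))
  filter_upwards [eventually_gt_atTop 0] with N hN
  have h1 : (0 : ℝ) < (N + j : ℕ) := by exact_mod_cast (by omega : 0 < N + j)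
  have h2 : (((N + k) / m : ℕ) : ℝ) ≤ (N + k : ℕ) / m := Nat.cast_div_le
  have h3 := Nat.lt_floor_add_one (((N + k : ℕ) : ℝ) / m)
  rw [Nat.floor_div_eq_div] at h3
  rw [Real.norm_eq_abs, show (∑ i ∈ Finset.Icc 1 (N + j), f i) / (N + j : ℕ) - 1 / m =
    (∑ i ∈ Finset.Icc 1 (N + j), f i - (N + j : ℕ) / m) / (N + j : ℕ) by field_simp,
    abs_div, abs_of_pos h1]
  refine div_le_div_of_nonneg_right ?_ h1.le
  have h4 : ((N + j : ℕ) : ℝ) / m = (N + k : ℕ) / m - (k - j) / m := by push_cast; ring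
  have h5 := le_abs_self (∑ i ∈ Finset.Icc 1 j, f i - (k / m : ℕ) + (k - j) / m)
  have h6 := neg_abs_le (∑ i ∈ Finset.Icc 1 j, f i - (k / m : ℕ) + (k - j) / m)
  have := e N
  rw [abs_le]
  constructor <;> linarith

theorem result : ∃ (T : ℝ → ℝ) (R : Set ℝ), BL T ∧ BijOn T (Icc 0 1) (Icc 0 1) ∧
    MeasurableSet R ∧ R ⊆ Icc 0 1 ∧ ∃ L : ℝ → ℝ,
      (∀ p ∈ Ioo (0 : ℝ) 1, Tendsto (fun N => A T R N p) atTop (𝓝 (L p))) ∧
      ∀ E : Set ℝ, volume (Icc 0 1 \ E) = 0 → (L '' (E ∩ Ioo 0 1)).Infinite := by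
  let F : ℕ → Set ℝ := fun i => (fun y : ℝ => ⌊1 / (y - 1 / 3)⌋₊) ⁻¹' {m | m ∣ i}
  have key : ∀ (p q : ℝ) (j k : ℕ), q ∈ Ioc (1 / 3 : ℝ) (2 / 3) → T0^[j] p = q / 2 ^ k →
      Tendsto (fun N => A T0 (RF F) N p) atTop (𝓝 (1 / (⌊1 / (q - 1 / 3)⌋₊ : ℕ))) := by
    intro p q j k hq e
    have h0 : 0 < q - 1 / 3 := sub_pos.2 hq.1
    refine avg (fun i => (RF F).indicator (fun _ => (1 : ℝ)) (T0^[i] p)) (j := j) (k := k)
      (Nat.floor_pos.2 ((one_le_div h0).2 (by linarith [hq.2]))) fun n => ?_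
    have h1 : 0 ≤ q := by linarith
    rw [Function.iterate_add_apply, e, iter (by positivity)
      ((div_le_self h1 (one_le_pow₀ one_le_two)).trans hq.2), div_div, ← pow_add, add_comm k n,
      indicator_apply, RF_mem _ hq]
    exact if_congr Iff.rfl rfl rfl
  refine ⟨T0, RF F, T0_BL.1, T0_BL.2, RF_meas fun i => ?_, RF_sub _,
    fun p => limUnder atTop fun N => A T0 (RF F) N p, fun p hp => ?_, fun E hE => ?_⟩
  · exact MeasurableSet.of_discrete.preimage (Nat.measurable_floor.comp (by fun_prop))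
  · have pos : ∀ j, 0 < T0^[j] p := fun j => by
      induction j with
      | zero => exact hp.1
      | succ j ih =>
        rw [Function.iterate_succ_apply']
        exact lt_max_of_lt_left (half_pos ih)
    obtain ⟨j, hj⟩ : ∃ j, T0^[j] p ≤ 2 / 3 := by
      by_contra! h
      have e : ∀ j, T0^[j] p = 1 - 2 ^ j * (1 - p) := fun j => by
        induction j with
        | zero => simp
        | succ j ih => rw [Function.iterate_succ_apply', T0_hi (h j).le, ih]; ring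
      obtain ⟨j, hj⟩ := pow_unbounded_of_one_lt (1 / (1 - p)) (one_lt_two (α := ℝ))
      rw [div_lt_iff₀ (sub_pos.2 hp.2)] at hj
      linarith [e j, pos j]
    obtain ⟨k, h1, h2⟩ := exists_nat_pow_near ((one_le_div (pos j)).2 hj) (one_lt_two (α := ℝ))
    rw [le_div_iff₀ (pos j)] at h1
    rw [div_lt_iff₀ (pos j), pow_succ] at h2
    exact tendsto_nhds_limUnder ⟨_, key p (T0^[j] p * 2 ^ k) j k ⟨by linarith, by linarith⟩
      (by field_simp)⟩
  · refine infinite_of_injective_forall_mem (f := fun m : ℕ => 1 / ((m + 3 : ℕ) : ℝ))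
      (fun a b h => ?_) fun m => ?_
    · simpa using h
    have hm : (0 : ℝ) ≤ m := Nat.cast_nonneg m
    have h1 : 1 / ((m : ℝ) + 4) < 1 / (m + 3) := one_div_lt_one_div_of_lt (by linarith) (by linarith)
    have h2 : 1 / ((m : ℝ) + 3) ≤ 1 / 3 := one_div_le_one_div_of_le (by linarith) (by linarith)
    have h3 : 0 < 1 / ((m : ℝ) + 4) := by positivity
    obtain ⟨q, hq, hqE⟩ : ∃ q ∈ Ioc (1 / 3 + 1 / ((m : ℝ) + 4)) (1 / 3 + 1 / (m + 3)), q ∈ E := by
      by_contra! h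
      have hs : Ioc (1 / 3 + 1 / ((m : ℝ) + 4)) (1 / 3 + 1 / (m + 3)) ⊆ Icc 0 1 \ E :=
        fun q hq => ⟨⟨by linarith [hq.1], by linarith [hq.2]⟩, h q hq⟩
      have := measure_mono_null hs hE
      rw [Real.volume_Ioc, ENNReal.ofReal_eq_zero] at this
      linarith
    have h0 : 0 < q - 1 / 3 := by linarith [hq.1]
    refine ⟨q, ⟨hqE, by linarith [hq.1], by linarith [hq.2]⟩, ?_⟩
    have := key q q 0 0 ⟨by linarith [hq.1], by linarith [hq.2]⟩ (by simp)
    rw [show ⌊1 / (q - 1 / 3)⌋₊ = m + 3 from (Nat.floor_eq_iff (by positivity)).2 ⟨?_, ?_⟩] at this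
    · exact this.limUnder_eq
    · push_cast
      exact (le_one_div (by linarith) h0).2 (by linarith [hq.2])
    · push_cast
      exact (one_div_lt h0 (by linarith)).2 (by rw [add_assoc]; norm_num; norm_num at hq; linarith [hq.1])

end Pool.Agent.Results.MP_8df504_an.ManyVals
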