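import Mathlib

/-! Ergodic averages of a broken-linear map need not converge. -/

namespace Pool.Agent.Results.MP_8df504_an.NoLimit

open Set Filter Topology MeasureTheory Classical

/-- broken-linear transformation of `[0,1]` -/
def BL (T : ℝ → ℝ) : Prop :=
  ContinuousOn T (Icc 0 1) ∧ MapsTo T (Icc 0 1) (Icc 0 1) ∧
    ∃ (m : ℕ) (a : ℕ → ℝ), a 0 = 0 ∧ a m = 1 ∧ (∀ j < m, a j < a (j + 1)) ∧
      ∀ j < m, ∃ c d : ℝ, ∀ x ∈ Icc (a j) (a (j + 1)), T x = c * x + d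

/-- proportion of the first `N` iterates of `p` lying in `R` -/
noncomputable def A (T : ℝ → ℝ) (R : Set ℝ) (N : ℕ) (p : ℝ) : ℝ :=
  (∑ i ∈ Finset.Icc 1 N, R.indicator (fun _ => (1 : ℝ)) (T^[i] p)) / N

/-- the example map -/
noncomputable def T0 (x : ℝ) : ℝ := max (x / 2) (2 * x - 1)

theorem T0_lo {x : ℝ} (h : x ≤ 2 / 3) : T0 x = x / 2 := max_eq_left (by linarith)

theorem T0_hi {x : ℝ} (h : 2 / 3 ≤ x) : T0 x = 2 * x - 1 := max_eq_right (by linarith)

theorem T0_BL : BL T0 ∧ BijOn T0 (Icc 0 1) (Icc 0 1) := by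
  have hc : Continuous T0 := by unfold T0; fun_prop
  have hm : MapsTo T0 (Icc 0 1) (Icc 0 1) := fun x hx =>
    ⟨le_max_of_le_left (by linarith [hx.1]), max_le (by linarith [hx.2]) (by linarith [hx.2])⟩
  have hs : StrictMono T0 := fun x y h => max_lt_max (by linarith) (by linarith)
  refine ⟨⟨hc.continuousOn, hm, 2, fun j => if j = 0 then 0 else if j = 1 then 2 / 3 else 1,
    by simp, by simp, fun j hj => ?_, fun j hj => ?_⟩, hm, hs.injective.injOn, ?_⟩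
  · interval_cases j <;> norm_num
  · interval_cases j
    · exact ⟨1 / 2, 0, fun x hx => by rw [T0_lo (by simpa using hx.2)]; ring⟩
    · exact ⟨2, -1, fun x hx => by rw [T0_hi (by simpa using hx.1)]; ring⟩
  · have := intermediate_value_Icc zero_le_one hc.continuousOn
    rwa [T0_lo (x := 0) (by norm_num), T0_hi (x := 1) (by norm_num), zero_div,
      show (2 : ℝ) * 1 - 1 = 1 by norm_num] at this

theorem iter {x : ℝ} (h0 : 0 ≤ x) (h : x ≤ 2 / 3) (n : ℕ) : T0^[n] x = x / 2 ^ n := by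
  induction n with
  | zero => simp
  | succ n ih =>
    rw [Function.iterate_succ_apply', ih,
      T0_lo ((div_le_self h0 (one_le_pow₀ one_le_two)).trans h), pow_succ, div_div]

/-- the set attached to a rule `F` -/
def RF (F : ℕ → Set ℝ) : Set ℝ := ⋃ i : ℕ, (fun x => x * 2 ^ i) ⁻¹' (Ioc (1 / 3) (2 / 3) ∩ F i)

theorem RF_meas {F : ℕ → Set ℝ} (h : ∀ i, MeasurableSet (F i)) : MeasurableSet (RF F) :=
  MeasurableSet.iUnion fun i => (measurableSet_Ioc.inter (h i)).preimage (by fun_prop)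

theorem RF_sub (F : ℕ → Set ℝ) : RF F ⊆ Icc 0 1 := fun x hx => by
  obtain ⟨i, ⟨h1, h2⟩, -⟩ := mem_iUnion.1 hx
  have : (1 : ℝ) ≤ 2 ^ i := one_le_pow₀ one_le_two
  have h0 : 0 < x := by
    by_contra h
    nlinarith [not_lt.1 h]
  exact ⟨h0.le, by nlinarith⟩

theorem RF_mem (F : ℕ → Set ℝ) {q : ℝ} (hq : q ∈ Ioc (1 / 3 : ℝ) (2 / 3)) (n : ℕ) :
    q / 2 ^ n ∈ RF F ↔ q ∈ F n := by
  have e : q / 2 ^ n * 2 ^ n = q := by field_simp
  refine ⟨fun h => ?_, fun h => mem_iUnion.2 ⟨n, by rw [mem_preimage, e]; exact ⟨hq, h⟩⟩⟩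
  obtain ⟨i, ⟨h1, h2⟩, h3⟩ := mem_iUnion.1 h
  beta_reduce at h1 h2 h3
  have hp : (0 : ℝ) < 2 ^ n := by positivity
  have hi : (0 : ℝ) < 2 ^ i := by positivity
  rw [div_mul_eq_mul_div] at h1 h2
  rw [lt_div_iff₀ hp] at h1
  rw [div_le_iff₀ hp] at h2
  obtain h | rfl | h := lt_trichotomy i n
  · have : (2 : ℝ) ^ (i + 1) ≤ 2 ^ n := pow_le_pow_right₀ one_le_two h
    rw [pow_succ] at this
    nlinarith [hq.2]
  · rwa [e] at h3
  · have : (2 : ℝ) ^ (n + 1) ≤ 2 ^ i := pow_le_pow_right₀ one_le_two h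
    rw [pow_succ] at this
    nlinarith [hq.1]

theorem result : ∃ (T : ℝ → ℝ) (R : Set ℝ), BL T ∧ BijOn T (Icc 0 1) (Icc 0 1) ∧
    MeasurableSet R ∧ R ⊆ Icc 0 1 ∧ ∃ a b : ℝ, 0 ≤ a ∧ a < b ∧ b ≤ 1 ∧ ∀ p ∈ Ioc a b,
      ¬ ∃ L : ℝ, Tendsto (fun N => A T R N p) atTop (𝓝 L) := by
  refine ⟨T0, RF fun i => {_x | Even (Nat.log 3 i)}, T0_BL.1, T0_BL.2,
    RF_meas fun i => MeasurableSet.const _, RF_sub _, 1 / 3, 2 / 3, by norm_num, by norm_num,
    by norm_num, fun p hp ⟨L, hL⟩ => ?_⟩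
  have e : ∀ N, A T0 (RF fun i => {_x | Even (Nat.log 3 i)}) N p =
      (((Finset.Icc 1 N).filter fun i => Even (Nat.log 3 i)).card : ℝ) / N := fun N => by
    simp only [A, iter (by linarith [hp.1]) hp.2, indicator_apply, RF_mem _ hp, mem_ofPred_eq,
      Finset.card_filter]
    push_cast
    rfl
  simp only [e] at hL
  have ht : ∀ r : ℕ, Tendsto (fun k : ℕ => 3 ^ (2 * k + r + 1) - 1) atTop atTop := fun r =>
    tendsto_atTop_mono (fun k => by
      have := Nat.lt_pow_self (n := 2 * k + r + 1) (show 1 < 3 by norm_num)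
      simp only [id]; omega) tendsto_id
  have pos : ∀ s : ℕ, (0 : ℝ) < ((3 ^ (s + 1) - 1 : ℕ) : ℝ) := fun s => by
    have : 0 < 3 ^ s := by positivity
    have : 0 < 3 ^ (s + 1) - 1 := by rw [pow_succ]; omega
    exact_mod_cast this
  have lg : ∀ s i : ℕ, 3 ^ s ≤ i → i ≤ 3 ^ (s + 1) - 1 → Nat.log 3 i = s := fun s i h1 h2 =>
    Nat.log_eq_of_pow_le_of_lt_pow h1 (by
      have : 0 < 3 ^ (s + 1) := by positivity
      omega)
  have h1 : 2 / 3 ≤ L := ge_of_tendsto' (hL.comp (ht 0)) fun k => by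
    simp only [Function.comp, add_zero]
    rw [le_div_iff₀ (pos _)]
    have : 0 < 3 ^ (2 * k) := by positivity
    have c := Finset.card_le_card (s := Finset.Icc (3 ^ (2 * k)) (3 ^ (2 * k + 1) - 1))
      (t := (Finset.Icc 1 (3 ^ (2 * k + 1) - 1)).filter fun i => Even (Nat.log 3 i))
      fun i hi => by
        rw [Finset.mem_Icc] at hi
        exact Finset.mem_filter.2 ⟨Finset.mem_Icc.2 ⟨by omega, hi.2⟩, by
          rw [lg _ _ hi.1 hi.2]; simp⟩
    rw [Nat.card_Icc] at c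
    have : 2 * (3 ^ (2 * k + 1) - 1) ≤ 3 * ((Finset.Icc 1 (3 ^ (2 * k + 1) - 1)).filter
      fun i => Even (Nat.log 3 i)).card := by
      have := pow_succ 3 (2 * k)
      omega
    have : (2 * ((3 ^ (2 * k + 1) - 1 : ℕ) : ℝ)) ≤ 3 * (((Finset.Icc 1 (3 ^ (2 * k + 1) - 1)).filter
      fun i => Even (Nat.log 3 i)).card : ℝ) := by exact_mod_cast this
    linarith
  have h2 : L ≤ 1 / 3 := le_of_tendsto' (hL.comp (ht 1)) fun k => by
    simp only [Function.comp]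
    rw [div_le_iff₀ (pos _)]
    have : 0 < 3 ^ (2 * k + 1) := by positivity
    have c := Finset.card_le_card (t := Finset.Icc 1 (3 ^ (2 * k + 1) - 1))
      (s := (Finset.Icc 1 (3 ^ (2 * k + 1 + 1) - 1)).filter fun i => Even (Nat.log 3 i))
      fun i hi => by
        rw [Finset.mem_filter, Finset.mem_Icc] at hi
        refine Finset.mem_Icc.2 ⟨hi.1.1, ?_⟩
        by_contra h
        have := hi.2
        rw [lg (2 * k + 1) _ (by omega) hi.1.2] at this
        exact Nat.not_even_two_mul_add_one k this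
    rw [Nat.card_Icc] at c
    have : 3 * ((Finset.Icc 1 (3 ^ (2 * k + 1 + 1) - 1)).filter
      fun i => Even (Nat.log 3 i)).card ≤ 3 ^ (2 * k + 1 + 1) - 1 := by
      have := pow_succ 3 (2 * k + 1)
      omega
    have : 3 * (((Finset.Icc 1 (3 ^ (2 * k + 1 + 1) - 1)).filter
      fun i => Even (Nat.log 3 i)).card : ℝ) ≤ ((3 ^ (2 * k + 1 + 1) - 1 : ℕ) : ℝ) := by
      exact_mod_cast this
    linarith
  linarith

end Pool.Agent.Results.MP_8df504_an.NoLimit
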